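import Pool.Agent.W169.RT.Stm

/-! RT-ORD: orders of zeros of the L-function and of the completed function. -/

set_option autoImplicit false

namespace Pool.Agent.W108.RT

open Filter Topology Pool.Agent.W169.RT Complex

theorem exists_gam {N : ℕ} [NeZero N] (χ : DirichletCharacter ℂ N) :
    ∃ g : ℂ → ℂ, Differentiable ℂ g ∧ (∀ s, 0 < s.re → g s ≠ 0) ∧
      ∀ s, (DirichletCharacter.gammaFactor χ s)⁻¹ = g s := by
  rcases χ.even_or_odd with hχ | hχ
  · refine ⟨fun s => (Gammaℝ s)⁻¹, differentiable_Gammaℝ_inv, fun s hs => ?_, fun s => ?_⟩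
    · exact inv_ne_zero (Gammaℝ_ne_zero_of_re_pos hs)
    · rw [hχ.gammaFactor_def]
  · refine ⟨fun s => (Gammaℝ (s + 1))⁻¹, ?_, fun s hs => ?_, fun s => ?_⟩
    · exact differentiable_Gammaℝ_inv.comp (differentiable_id.add_const 1)
    · refine inv_ne_zero (Gammaℝ_ne_zero_of_re_pos ?_)
      rw [add_re, one_re]
      linarith
    · rw [hχ.gammaFactor_def]

theorem ord : S_ORD := by
  intro N _ χ hχ L hL s hs
  have hN : N ≠ 1 := by
    rintro rfl
    exact hχ (DirichletCharacter.level_one χ)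
  obtain ⟨g, hg1, hg2, hg3⟩ := exists_gam χ
  have hcd : Differentiable ℂ (DirichletCharacter.completedLFunction χ) :=
    DirichletCharacter.differentiable_completedLFunction hχ
  have hN0 : (N : ℂ) ≠ 0 := NeZero.ne _
  have hpd : Differentiable ℂ (fun w : ℂ => (N : ℂ) ^ (w / 2)) := by
    intro w
    exact ((differentiableAt_id.div_const 2).const_cpow (Or.inl hN0))
  have hpn : ∀ w : ℂ, (N : ℂ) ^ (w / 2) ≠ 0 := fun w => by
    rw [Ne, cpow_eq_zero_iff]
    exact fun h => hN0 h.1
  have hLF : DirichletCharacter.LFunction χ = DirichletCharacter.completedLFunction χ * g := by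
    funext w
    rw [DirichletCharacter.LFunction_eq_completed_div_gammaFactor χ w (Or.inr hN), div_eq_mul_inv,
      hg3]
    rfl
  have hLam : LamC χ = (fun w : ℂ => (N : ℂ) ^ (w / 2)) * DirichletCharacter.completedLFunction χ := by
    funext w
    rfl
  have hLamd : Differentiable ℂ (LamC χ) := by
    rw [hLam]
    exact hpd.mul hcd
  have e1 : analyticOrderAt (DirichletCharacter.LFunction χ) s =
      analyticOrderAt (DirichletCharacter.completedLFunction χ) s := by
    rw [hLF, analyticOrderAt_mul (hcd.analyticAt s) (hg1.analyticAt s),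
      (hg1.analyticAt s).analyticOrderAt_eq_zero.2 (hg2 s hs), add_zero]
  have e2 : analyticOrderAt (LamC χ) s =
      analyticOrderAt (DirichletCharacter.completedLFunction χ) s := by
    rw [hLam, analyticOrderAt_mul (hpd.analyticAt s) (hcd.analyticAt s),
      (hpd.analyticAt s).analyticOrderAt_eq_zero.2 (hpn s), zero_add]
  have hLc : (L : ℂ) ≠ 0 := by exact_mod_cast hL.ne'
  have hz : (1 / 2 : ℂ) + ((L : ℂ) * (s - 1 / 2)) / (L : ℂ) = s := by
    field_simp
    ring
  have had : Differentiable ℂ (fun z : ℂ => (1 / 2 : ℂ) + z / (L : ℂ)) := by fun_prop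
  have hder : deriv (fun z : ℂ => (1 / 2 : ℂ) + z / (L : ℂ)) ((L : ℂ) * (s - 1 / 2)) ≠ 0 := by
    have h1 : HasDerivAt (fun z : ℂ => (1 / 2 : ℂ) + z / (L : ℂ)) (1 / (L : ℂ))
        ((L : ℂ) * (s - 1 / 2)) := ((hasDerivAt_id _).div_const _).const_add _
    rw [h1.deriv]
    exact one_div_ne_zero hLc
  have e3 : analyticOrderAt (fun z => LamC χ (1 / 2 + z / (L : ℂ))) ((L : ℂ) * (s - 1 / 2)) =
      analyticOrderAt (LamC χ) s := by
    have h1 := analyticOrderAt_comp_of_deriv_ne_zero (f := LamC χ)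
      (had.analyticAt ((L : ℂ) * (s - 1 / 2))) hder
    rw [hz] at h1
    exact h1
  unfold analyticOrderNatAt
  rw [e3, e2, e1]

end Pool.Agent.W108.RT
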